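import Pool.Agent.Q158.AddPoset

/-!
# MP_3cee42_co: a finite additive poset that is not plain
-/

namespace Pool.Agent.Results.MP_3cee42_co.NotPlain

open Q158.AddPoset

/-- There is a finite additive poset that does not embed in `2^I` for any finite set `I`. -/
theorem result : ∃ (A : Type) (_ : AddCommGroup A) (_ : PartialOrder A),
    Finite A ∧ IsAdditivePoset A ∧ ¬ Plain A :=
  result_plain

end Pool.Agent.Results.MP_3cee42_co.NotPlain
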